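import Mathlib
import Pool.Agent.H.MP_dfc365_gt.A

namespace Pool.Agent.Results.MP_dfc365_gt.Yes

open Set Function Topology Filter TopologicalSpace Cardinal Pool.Agent.H.MP_dfc365_gt.A
open Pool.Agent.H.MP_44eb6b_gt.C (bnd)

/-- Continuous real functions with the topology of pointwise convergence. -/
abbrev Cp (X : Type) [TopologicalSpace X] : Type := {f : X → ℝ // Continuous f}

theorem result (h : continuum.{0} = aleph 1) : ∃ (X : Type) (_ : TopologicalSpace X),
    T35Space X ∧ SeparableSpace (Cp X) ∧ FrechetUrysohnSpace (Cp X) ∧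
      ∃ S : Set (Cp X), ¬ SeparableSpace S := by
  classical
  obtain ⟨x, x1, x2, x3, -, x4⟩ := tow h (fun _ _ => ∅) fun _ _ _ => countable_empty
  let c := fun a (z : Y) => decide (z = .inr a)
  letI : TopologicalSpace Y := .induced (fun z => Sum.elim (pr x z) (c · z)) inferInstance
  have e : IsEmbedding fun z : Y => Sum.elim (pr x z) (c · z) :=
    ⟨⟨rfl⟩, fun z w l => pri x1 x2 (funext fun i => congrFun l (.inl i))⟩
  have pc : Continuous (pr x) := continuous_pi fun i =>
    (continuous_apply (Sum.inl i)).comp e.continuous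
  refine ⟨Y, inferInstance, e.t35Space, ?_, ⟨fun A f hf => ?_⟩, ?_⟩
  · refine DenseRange.separableSpace (f := fun g : C(ℕ → Bool, ℝ) => (⟨g ∘ pr x, g.2.comp pc⟩ : Cp Y))
      (fun f => mem_closure_iff.2 fun U u1 u2 => ?_)
      (.subtype_mk (continuous_pi fun z => continuous_eval_const _) fun g => g.2.comp pc)
    obtain ⟨V, v1, rfl⟩ := isOpen_induced_iff.1 u1
    obtain ⟨I, u, i1, i2⟩ := isOpen_pi_iff.1 v1 f u2
    have hs := I.finite_toSet.image (pr x)
    haveI := hs.to_subtype
    obtain ⟨g, hg⟩ := ContinuousMap.exists_restrict_eq hs.isClosed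
      (⟨fun y => f.1 y.2.choose, continuous_of_discreteTopology⟩ : C(_, ℝ))
    refine ⟨_, i2 fun z hz => ?_, g, rfl⟩
    have := ContinuousMap.congr_fun hg ⟨_, z, hz, rfl⟩
    simp only [ContinuousMap.restrict_apply, ContinuousMap.coe_mk] at this
    rw [pri x1 x2 (Exists.choose_spec (⟨z, hz, rfl⟩ : pr x z ∈ pr x '' I)).2] at this
    show g (pr x z) ∈ u z
    rw [show g (pr x z) = _ from this]
    exact (i1 z hz).2
  · rw [IsInducing.subtypeVal.closure_eq_preimage_closure_image] at hf
    obtain ⟨u, u1, u2⟩ := fu x3 x4 (nb2 c fun a s => by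
      obtain ⟨m, m1, m2⟩ := (x2 a).exists_notMem_finset s
      refine ⟨m + 1, fun w hw => ?_⟩
      have : w ≠ .inr a := by
        rintro rfl
        simpa [pr, m1, m2] using hw m (by omega)
      simp [c, this]) (by rintro _ ⟨g, -, rfl⟩; exact g.2) f.2 hf
    choose v v1 v2 using u1
    exact ⟨v, v1, tendsto_subtype_rng.2 (by simpa [v2] using u2)⟩
  · let F := fun a => (⟨fun z => if c a z then 1 else 0, (continuous_of_discreteTopology
      (f := fun t : Bool => if t then (1 : ℝ) else 0)).comp
        ((continuous_apply (Sum.inr a)).comp e.continuous)⟩ : Cp Y)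
    refine ⟨range F, fun ⟨S, s1, s2⟩ => ?_⟩
    choose b hb using fun f : range F => f.2
    obtain ⟨a, ha⟩ := bnd (s1.image b)
    have := (isClosed_eq (f := fun f : range F => f.1.1 (.inr a)) (g := fun _ => 0)
      ((continuous_apply _).comp (continuous_subtype_val.comp continuous_subtype_val))
      continuous_const).closure_subset_iff.2 (fun f hf => by
        simp [← hb f, F, c, (ha _ ⟨f, hf, rfl⟩).ne']) (s2 ⟨_, a, rfl⟩)
    simp [F, c] at this

end Pool.Agent.Results.MP_dfc365_gt.Yes
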